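import Pool.Agent.Helper87.RP.Defs

/-!
# MP_4e034d_co : module T3, the sign of an edge is constant
-/

namespace Pool.Agent.Helper84.RP

open Pool.Agent.Helper87.RP Finset

variable {V : Type}

/-- The open star of an edge. -/
def est [Fintype V] (K : AbstractSimplicialComplex V) (u v : V) : Set (V → ℝ) :=
  {x | x ∈ real K ∧ 0 < x u ∧ 0 < x v}

theorem est_preconnected [Fintype V] (K : AbstractSimplicialComplex V) (u v : V) :
    IsPreconnected (est K u v) := by
  classical
  rcases (est K u v).eq_empty_or_nonempty with h | ⟨y, hy⟩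
  · rw [h]
    exact isPreconnected_empty
  -- the midpoint
  let m : V → ℝ := fun w => (if w = u then 1 / 2 else 0) + (if w = v then 1 / 2 else 0)
  have hm0 : ∀ w, 0 ≤ m w := by
    intro w
    show 0 ≤ (if w = u then (1 / 2 : ℝ) else 0) + (if w = v then 1 / 2 else 0)
    split_ifs <;> norm_num
  have hm1 : ∑ w, m w = 1 := by
    show ∑ w, ((if w = u then (1 / 2 : ℝ) else 0) + (if w = v then 1 / 2 else 0)) = 1
    rw [Finset.sum_add_distrib]
    simp
    norm_num
  have hms : ∀ w, m w ≠ 0 → w = u ∨ w = v := by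
    intro w hw
    by_contra hcon
    push Not at hcon
    apply hw
    show (if w = u then (1 / 2 : ℝ) else 0) + (if w = v then 1 / 2 else 0) = 0
    rw [if_neg hcon.1, if_neg hcon.2, add_zero]
  have hmu : 0 < m u := by
    show 0 < (if u = u then (1 / 2 : ℝ) else 0) + (if u = v then 1 / 2 else 0)
    rw [if_pos rfl]
    split_ifs <;> norm_num
  have hmv : 0 < m v := by
    show 0 < (if v = u then (1 / 2 : ℝ) else 0) + (if v = v then 1 / 2 else 0)
    rw [if_pos rfl]
    split_ifs <;> norm_num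
  have hstar : StarConvex ℝ m (est K u v) := by
    intro x hx a b ha hb hab
    obtain ⟨⟨hx0, hx1, f, hf, hxf⟩, hxu, hxv⟩ := hx
    refine ⟨⟨?_, ?_, f, hf, ?_⟩, ?_, ?_⟩
    · intro w
      show 0 ≤ a * m w + b * x w
      have := mul_nonneg ha (hm0 w)
      have := mul_nonneg hb (hx0 w)
      linarith
    · show ∑ w, (a * m w + b * x w) = 1
      rw [Finset.sum_add_distrib, ← Finset.mul_sum, ← Finset.mul_sum, hm1, hx1]
      linarith
    · intro w hw
      have hw' : a * m w + b * x w ≠ 0 := hw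
      by_cases h1 : m w = 0
      · refine hxf w (fun e => hw' ?_)
        rw [h1, e]
        ring
      · rcases hms w h1 with rfl | rfl
        · exact hxf _ hxu.ne'
        · exact hxf _ hxv.ne'
    · show 0 < a * m u + b * x u
      rcases eq_or_lt_of_le ha with h | h
      · have hb1 : b = 1 := by linarith
        rw [← h, hb1]
        linarith
      · have := mul_pos h hmu
        have := mul_nonneg hb hxu.le
        linarith
    · show 0 < a * m v + b * x v
      rcases eq_or_lt_of_le ha with h | h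
      · have hb1 : b = 1 := by linarith
        rw [← h, hb1]
        linarith
      · have := mul_pos h hmv
        have := mul_nonneg hb hxv.le
        linarith
  have hm : m ∈ est K u v := by
    obtain ⟨⟨hy0, hy1, f, hf, hyf⟩, hyu, hyv⟩ := hy
    refine ⟨⟨hm0, hm1, f, hf, fun w hw => ?_⟩, hmu, hmv⟩
    rcases hms w hw with rfl | rfl
    · exact hyf _ hyu.ne'
    · exact hyf _ hyv.ne'
  exact (hstar.isPathConnected hm).isConnected.isPreconnected

/-- module T3: signs of the edges. -/
theorem exists_edge_sign [Fintype V] {d : ℕ} (K : AbstractSimplicialComplex V)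
    (h : real K ≃ₜ RPd d) (u v : V) (ψ φ : Sph d → ℝ) (hψ : Continuous ψ) (hφ : Continuous φ)
    (hψ1 : ∀ q, ψ (-q) = -ψ q) (hφ1 : ∀ q, φ (-q) = -φ q)
    (hψ2 : ∀ q, |ψ q| = (h.symm (prj d q)).1 u) (hφ2 : ∀ q, |φ q| = (h.symm (prj d q)).1 v) :
    ∃ σ : ℝ, (σ = 1 ∨ σ = -1) ∧ ∀ q, ψ q * φ q = σ * (|ψ q| * |φ q|) := by
  classical
  by_cases h1 : ∀ q, 0 ≤ ψ q * φ q
  · refine ⟨1, Or.inl rfl, fun q => ?_⟩
    rw [← abs_mul, abs_of_nonneg (h1 q), one_mul]
  by_cases h2 : ∀ q, ψ q * φ q ≤ 0
  · refine ⟨-1, Or.inr rfl, fun q => ?_⟩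
    rw [← abs_mul, abs_of_nonpos (h2 q)]
    ring
  exfalso
  push Not at h1 h2
  obtain ⟨q1, hq1⟩ := h1
  obtain ⟨q2, hq2⟩ := h2
  -- even open sets descend
  have hdesc : ∀ S : Set (Sph d), IsOpen S → (∀ q ∈ S, -q ∈ S) → IsOpen (prj d '' S) := by
    intro S hS hSn
    have e : prj d ⁻¹' (prj d '' S) = S := by
      ext q
      constructor
      · rintro ⟨q', hq', e⟩
        rcases prj_eq_iff.1 e with rfl | rfl
        · exact hq'
        · have := hSn _ hq'
          rwa [neg_neg] at this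
      · exact fun hq => ⟨q, hq, rfl⟩
    have : IsOpen (prj d ⁻¹' (prj d '' S)) := by
      rw [e]
      exact hS
    exact this
  let P : Set (Sph d) := {q | 0 < ψ q * φ q}
  let N : Set (Sph d) := {q | ψ q * φ q < 0}
  have hP : IsOpen P := isOpen_lt continuous_const (hψ.mul hφ)
  have hN : IsOpen N := isOpen_lt (hψ.mul hφ) continuous_const
  have heven : ∀ q, ψ (-q) * φ (-q) = ψ q * φ q := by
    intro q
    rw [hψ1, hφ1]
    ring
  have hP' := hdesc P hP (fun q hq => by
    show 0 < ψ (-q) * φ (-q)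
    rw [heven]
    exact hq)
  have hN' := hdesc N hN (fun q hq => by
    show ψ (-q) * φ (-q) < 0
    rw [heven]
    exact hq)
  -- the preimages in the complex
  let B : Set (real K) := Subtype.val ⁻¹' est K u v
  have hB : IsPreconnected B := by
    rw [← Topology.IsInducing.subtypeVal.isPreconnected_image]
    have : (Subtype.val '' B : Set (V → ℝ)) = est K u v := by
      ext x
      constructor
      · rintro ⟨y, hy, rfl⟩
        exact hy
      · intro hx
        exact ⟨⟨x, hx.1⟩, hx, rfl⟩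
    rw [this]
    exact est_preconnected K u v
  have hmem : ∀ q, ψ q * φ q ≠ 0 → h.symm (prj d q) ∈ B := by
    intro q hq
    refine ⟨(h.symm (prj d q)).2, ?_, ?_⟩
    · rw [← hψ2 q]
      exact abs_pos.2 (left_ne_zero_of_mul hq)
    · rw [← hφ2 q]
      exact abs_pos.2 (right_ne_zero_of_mul hq)
  obtain ⟨x, hxB, hxP, hxN⟩ := hB (h ⁻¹' (prj d '' P)) (h ⁻¹' (prj d '' N))
    (hP'.preimage h.continuous) (hN'.preimage h.continuous) (by
      intro x hx
      obtain ⟨q, hq⟩ := prj_surjective d (h x)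
      have e : h.symm (prj d q) = x := by rw [hq, h.symm_apply_apply]
      have e1 : |ψ q| = x.1 u := by rw [hψ2 q, e]
      have e2 : |φ q| = x.1 v := by rw [hφ2 q, e]
      have hx' : (x : V → ℝ) ∈ est K u v := hx
      have h3 : ψ q ≠ 0 := by
        rw [← abs_pos, e1]
        exact hx'.2.1
      have h4 : φ q ≠ 0 := by
        rw [← abs_pos, e2]
        exact hx'.2.2
      rcases lt_or_gt_of_ne (mul_ne_zero h3 h4) with h5 | h5
      · exact Or.inr ⟨q, h5, hq⟩
      · exact Or.inl ⟨q, h5, hq⟩)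
    ⟨h.symm (prj d q2), hmem q2 hq2.ne', by
      show h (h.symm (prj d q2)) ∈ prj d '' P
      rw [h.apply_symm_apply]
      exact ⟨q2, hq2, rfl⟩⟩
    ⟨h.symm (prj d q1), hmem q1 hq1.ne, by
      show h (h.symm (prj d q1)) ∈ prj d '' N
      rw [h.apply_symm_apply]
      exact ⟨q1, hq1, rfl⟩⟩
  obtain ⟨q, hq, e⟩ := hxP
  obtain ⟨q', hq', e'⟩ := hxN
  have hq1 : 0 < ψ q * φ q := hq
  have hq2 : ψ q' * φ q' < 0 := hq'
  rcases prj_eq_iff.1 (e.trans e'.symm) with h6 | h6
  · rw [h6] at hq1
    linarith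
  · rw [h6, heven] at hq1
    linarith

end Pool.Agent.Helper84.RP
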