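import Pool.Agent.Helper62.RP.U1
import Pool.Agent.Helper7.RP.U2
import Pool.Agent.Helper24.RP.U3

/-!
# MP_4e034d_co : module U4, the Borsuk-Ulam theorem from the algebraic Tucker lemma
-/

namespace Pool.Agent.Helper84.RP

open Pool.Agent.Helper87.RP Finset Pool.Agent.Helper7.RP Pool.Agent.Helper24.RP

/-- The boundary of the cross polytope. -/
def crs (d : ℕ) : Set (EuclideanSpace ℝ (Fin (d + 1))) := {x | ∑ i, |x i| = 1}

theorem crs_ne {d : ℕ} {x : EuclideanSpace ℝ (Fin (d + 1))} (hx : x ∈ crs d) : x ≠ 0 := by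
  rintro rfl
  have h : ∑ i : Fin (d + 1), |(0 : EuclideanSpace ℝ (Fin (d + 1))) i| = 1 := hx
  simp at h

theorem crs_neg {d : ℕ} {x : EuclideanSpace ℝ (Fin (d + 1))} (hx : x ∈ crs d) : -x ∈ crs d := by
  have h : ∑ i : Fin (d + 1), |x i| = 1 := hx
  show ∑ i : Fin (d + 1), |(-x) i| = 1
  simpa using h

theorem crs_compact (d : ℕ) : IsCompact (crs d) := by
  apply Metric.isCompact_of_isClosed_isBounded
  · exact isClosed_eq (by fun_prop) continuous_const
  · refine Bornology.IsBounded.subset (Metric.isBounded_closedBall (x := 0) (r := 1)) ?_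
    intro x hx
    have h : ∑ i : Fin (d + 1), |x i| = 1 := hx
    rw [mem_closedBall_zero_iff, EuclideanSpace.norm_eq, Real.sqrt_le_one]
    calc ∑ i, ‖x i‖ ^ 2 ≤ ∑ i, |x i| := by
          refine Finset.sum_le_sum (fun i _ => ?_)
          have h1 : |x i| ≤ 1 := by
            rw [← h]
            exact Finset.single_le_sum (f := fun i => |x i|) (fun j _ => abs_nonneg _)
              (Finset.mem_univ i)
          rw [Real.norm_eq_abs, sq]
          nlinarith [abs_nonneg (x i)]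
      _ = 1 := h

/-- The radial projection to the sphere. -/
noncomputable def rad {d : ℕ} (x : EuclideanSpace ℝ (Fin (d + 1))) (hx : x ≠ 0) : Sph d :=
  ⟨‖x‖⁻¹ • x, by
    rw [mem_sphere_zero_iff_norm, norm_smul, norm_inv, norm_norm,
      inv_mul_cancel₀ (norm_ne_zero_iff.2 hx)]⟩

theorem rad_neg {d : ℕ} (x : EuclideanSpace ℝ (Fin (d + 1))) (hx : x ≠ 0) (hx' : -x ≠ 0) :
    rad (-x) hx' = -rad x hx := by
  apply Subtype.ext
  show ‖-x‖⁻¹ • -x = -(‖x‖⁻¹ • x)
  rw [norm_neg, smul_neg]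

/-- module U4 (from U1, U2, U3) -/
theorem borsuk_ulam (d : ℕ) (f : Sph d → Fin d → ℝ) (hf : Continuous f)
    (hodd : ∀ x, f (-x) = -f x) : ∃ x, f x = 0 := by
  classical
  by_contra hcon
  push Not at hcon
  -- a point of the sphere
  have x0 : Sph d := ⟨EuclideanSpace.single 0 1, by simp⟩
  rcases Nat.eq_zero_or_pos d with hd | hd
  · subst hd
    exact hcon x0 (Subsingleton.elim _ _)
  let i0 : Fin d := ⟨0, hd⟩
  -- the function on the cross polytope
  let g : crs d → Fin d → ℝ := fun x => f (rad x.1 (crs_ne x.2))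
  have hgc : Continuous g := by
    refine hf.comp ?_
    refine Continuous.subtype_mk ?_ _
    exact (continuous_subtype_val.norm.inv₀ (fun x => norm_ne_zero_iff.2 (crs_ne x.2))).smul
      continuous_subtype_val
  have hcs : CompactSpace (crs d) := isCompact_iff_compactSpace.1 (crs_compact d)
  have hne : Nonempty (crs d) := by
    refine ⟨⟨EuclideanSpace.single 0 1, ?_⟩⟩
    show ∑ i : Fin (d + 1), |(EuclideanSpace.single (0 : Fin (d + 1)) (1 : ℝ)) i| = 1
    rw [Finset.sum_eq_single 0]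
    · simp
    · intro b _ hb
      simp [hb]
    · simp
  obtain ⟨m, -, hm⟩ := isCompact_univ.exists_isMinOn (Set.univ_nonempty (α := crs d))
    (f := fun x => ‖g x‖) (hgc.norm.continuousOn)
  have hm0 : 0 < ‖g m‖ := norm_pos_iff.2 (hcon _)
  obtain ⟨δ, hδ, huc⟩ := Metric.uniformContinuous_iff.1
    (CompactSpace.uniformContinuous_of_continuous hgc) (‖g m‖ / 2) (by linarith)
  -- the index
  have hidx : ∀ x : crs d, ∃ i, ‖g m‖ ≤ |g x i| := by
    intro x
    by_contra h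
    push Not at h
    have h1 : ‖g x‖ < ‖g m‖ := (pi_norm_lt_iff hm0).2 (fun i => by
      rw [Real.norm_eq_abs]
      exact h i)
    have h2 : ‖g m‖ ≤ ‖g x‖ := hm (Set.mem_univ x)
    linarith
  let ch : Set (Fin d) → Fin d := fun S => if h : S.Nonempty then h.choose else i0
  have hch : ∀ S : Set (Fin d), S.Nonempty → ch S ∈ S := by
    intro S hS
    show (if h : S.Nonempty then h.choose else i0) ∈ S
    rw [dif_pos hS]
    exact hS.choose_spec
  let ix : crs d → Fin d := fun x => ch {i | ‖g m‖ ≤ |g x i|}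
  have hix : ∀ x, ‖g m‖ ≤ |g x (ix x)| := fun x => hch _ (hidx x)
  have hgn : ∀ (x : crs d) (hx' : -x.1 ∈ crs d), g ⟨-x.1, hx'⟩ = -g x := by
    intro x hx'
    show f (rad (-x.1) _) = -f (rad x.1 _)
    rw [rad_neg x.1 (crs_ne x.2), hodd]
  have hixn : ∀ (x : crs d) (hx' : -x.1 ∈ crs d), ix ⟨-x.1, hx'⟩ = ix x := by
    intro x hx'
    show ch _ = ch _
    congr 1
    ext i
    simp only [Set.mem_setOf_eq]
    rw [hgn x hx', Pi.neg_apply, abs_neg]
  let lab : EuclideanSpace ℝ (Fin (d + 1)) → Fin d × Bool := fun x =>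
    if hx : x ∈ crs d then (ix ⟨x, hx⟩, decide (0 < g ⟨x, hx⟩ (ix ⟨x, hx⟩))) else (i0, true)
  have hlab : ∀ x : crs d, lab x.1 = (ix x, decide (0 < g x (ix x))) := by
    intro x
    show (if hx : x.1 ∈ crs d then (ix ⟨x.1, hx⟩, decide (0 < g ⟨x.1, hx⟩ (ix ⟨x.1, hx⟩)))
      else (i0, true)) = _
    rw [dif_pos x.2]
  obtain ⟨c, hc, hcr⟩ := cert_cross d
  obtain ⟨c', hc', hs⟩ := cert_refine d c hc (δ / 2) (by linarith)
  have hin : ∀ j ≤ d, ∀ l ∈ (c' j).support, ∀ x ∈ l, x ∈ crs d := by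
    intro j hj l hl x hx
    obtain ⟨-, l₀, hl₀, h1⟩ := hs j hj l hl
    exact hcr j hj l₀ hl₀ x (h1 x hx)
  refine tucker_alg d c' hc' lab ?_ ?_
  · intro j hj l hl x hx
    have hxc := hin j hj l hl x hx
    have hxn := crs_neg hxc
    have e1 := hlab ⟨x, hxc⟩
    have e2 := hlab ⟨-x, hxn⟩
    simp only at e1 e2
    rw [e1, e2, hixn ⟨x, hxc⟩ hxn, hgn ⟨x, hxc⟩ hxn]
    have hz := hix ⟨x, hxc⟩
    have hz0 : g ⟨x, hxc⟩ (ix ⟨x, hxc⟩) ≠ 0 := by
      intro e
      rw [e, abs_zero] at hz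
      linarith
    congr 1
    rw [Pi.neg_apply]
    rcases lt_or_gt_of_ne hz0 with h1 | h1
    · simp [h1, h1.le, not_lt.2 h1.le]
    · simp [h1, h1.le]
  · intro j hj l hl x hx y hy e
    have hxc := hin j hj l hl x hx
    have hyc := hin j hj l hl y hy
    have e1 := hlab ⟨x, hxc⟩
    have e2 := hlab ⟨y, hyc⟩
    simp only at e1 e2
    rw [e1, e2] at e
    obtain ⟨h1, h2⟩ := Prod.mk.inj e
    simp only at h1 h2
    have hxy : dist (⟨x, hxc⟩ : crs d) ⟨y, hyc⟩ < δ := by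
      rw [Subtype.dist_eq, dist_eq_norm]
      have := (hs j hj l hl).1 x hx y hy
      simp only
      linarith
    have h3 := huc hxy
    have h4 : |g ⟨x, hxc⟩ (ix ⟨y, hyc⟩) - g ⟨y, hyc⟩ (ix ⟨y, hyc⟩)| < ‖g m‖ / 2 := by
      refine lt_of_le_of_lt ?_ h3
      rw [dist_eq_norm, ← Real.norm_eq_abs, ← Pi.sub_apply]
      exact norm_le_pi_norm _ _
    have h5 := hix ⟨x, hxc⟩
    have h6 := hix ⟨y, hyc⟩
    rw [h1] at h5 h2
    by_cases h7 : 0 < g ⟨y, hyc⟩ (ix ⟨y, hyc⟩)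
    · have h8 : ¬ 0 < g ⟨x, hxc⟩ (ix ⟨y, hyc⟩) := by
        simpa [h7] using h2
      rw [abs_of_pos h7] at h6
      rw [abs_of_nonpos (not_lt.1 h8)] at h5
      rw [abs_lt] at h4
      linarith
    · have h8 : 0 < g ⟨x, hxc⟩ (ix ⟨y, hyc⟩) := by
        simpa [h7] using h2
      rw [abs_of_nonpos (not_lt.1 h7)] at h6
      rw [abs_of_pos h8] at h5
      rw [abs_lt] at h4
      linarith

end Pool.Agent.Helper84.RP
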