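import Pool.Agent.Helper84.RP.T3
import Pool.Agent.Helper84.RP.U4
import Pool.Agent.Helper37.RP.T2
import Pool.Agent.Helper77.RP.T1

/-!
# MP_4e034d_co : module T4, the signed complete graph of a triangulation
-/

namespace Pool.Agent.Helper84.RP

open Pool.Agent.Helper87.RP Finset

variable {V : Type}

/-- module T4 (from U4, T2, T3) -/
theorem exists_signs [Fintype V] [DecidableEq V] {d : ℕ} (K : AbstractSimplicialComplex V)
    (h : real K ≃ₜ RPd d) : ∃ s : V → V → ℝ, Sg s ∧ Idx s univ d := by
  classical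
  have hT1 : Pool.Agent.Helper37.RP.StT1 := fun g hg H hH a₀ h0 h1 =>
    Pool.Agent.Helper77.RP.exists_sign g hg H hH a₀ h0 h1
  choose ψ hψc hψn hψa using Pool.Agent.Helper37.RP.exists_psi hT1 K h
  let s : V → V → ℝ := fun u v => if ∃ q, ψ u q * ψ v q < 0 then -1 else 1
  have hs : ∀ u v, s u v = if ∃ q, ψ u q * ψ v q < 0 then -1 else 1 := fun _ _ => rfl
  -- the sign of an edge
  have key : ∀ u v q, ψ u q ≠ 0 → ψ v q ≠ 0 →
      s u v = (if ψ u q < 0 then -1 else 1) * (if ψ v q < 0 then -1 else 1) := by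
    intro u v q hu hv
    rcases lt_or_gt_of_ne hu with hu' | hu' <;> rcases lt_or_gt_of_ne hv with hv' | hv'
    · rw [if_pos hu', if_pos hv', hs, if_neg]
      · norm_num
      · rintro ⟨q', hq'⟩
        obtain ⟨σ, hσ, h1⟩ := exists_edge_sign K h u v (ψ u) (ψ v) (hψc u) (hψc v) (hψn u)
          (hψn v) (hψa u) (hψa v)
        have h2 : 0 < ψ u q * ψ v q := mul_pos_of_neg_of_neg hu' hv'
        rcases hσ with rfl | rfl
        · rw [h1 q'] at hq'
          have := mul_nonneg (abs_nonneg (ψ u q')) (abs_nonneg (ψ v q'))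
          linarith
        · rw [h1 q] at h2
          have := mul_nonneg (abs_nonneg (ψ u q)) (abs_nonneg (ψ v q))
          linarith
    · rw [if_pos hu', if_neg (not_lt.2 hv'.le), hs, if_pos ⟨q, mul_neg_of_neg_of_pos hu' hv'⟩]
      norm_num
    · rw [if_neg (not_lt.2 hu'.le), if_pos hv', hs, if_pos ⟨q, mul_neg_of_pos_of_neg hu' hv'⟩]
      norm_num
    · rw [if_neg (not_lt.2 hu'.le), if_neg (not_lt.2 hv'.le), hs, if_neg]
      · norm_num
      · rintro ⟨q', hq'⟩
        obtain ⟨σ, hσ, h1⟩ := exists_edge_sign K h u v (ψ u) (ψ v) (hψc u) (hψc v) (hψn u)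
          (hψn v) (hψa u) (hψa v)
        have h2 : 0 < ψ u q * ψ v q := mul_pos hu' hv'
        rcases hσ with rfl | rfl
        · rw [h1 q'] at hq'
          have := mul_nonneg (abs_nonneg (ψ u q')) (abs_nonneg (ψ v q'))
          linarith
        · rw [h1 q] at h2
          have := mul_nonneg (abs_nonneg (ψ u q)) (abs_nonneg (ψ v q))
          linarith
  refine ⟨s, ⟨?_, ?_, ?_⟩, ?_⟩
  · intro u v
    rw [hs]
    split_ifs
    · exact Or.inr rfl
    · exact Or.inl rfl
  · intro u v
    rw [hs, hs]
    simp only [mul_comm]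
  · intro u
    rw [hs, if_neg]
    rintro ⟨q, hq⟩
    have := mul_self_nonneg (ψ u q)
    linarith
  · intro F
    obtain ⟨q, hq⟩ := borsuk_ulam d (fun q => ∑ u, ψ u q • F u)
      (by
        refine continuous_finsetSum _ (fun u _ => ?_)
        exact (hψc u).smul continuous_const)
      (by
        intro x
        rw [← Finset.sum_neg_distrib]
        refine Finset.sum_congr rfl (fun u _ => ?_)
        rw [hψn, neg_smul])
    refine ⟨univ.filter (fun u => ψ u q ≠ 0), fun u => if ψ u q < 0 then -1 else 1,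
      fun u => |ψ u q|, Finset.filter_subset _ _, ?_, ⟨?_, ?_⟩, ?_, ?_⟩
    · by_contra hcon
      rw [Finset.not_nonempty_iff_eq_empty, Finset.filter_eq_empty_iff] at hcon
      have h1 := (h.symm (prj d q)).2.2.1
      have h2 : ∑ v, (h.symm (prj d q)).1 v = 0 := by
        refine Finset.sum_eq_zero (fun u hu => ?_)
        rw [← hψa u q, abs_eq_zero]
        exact not_not.1 (hcon hu)
      rw [h1] at h2
      exact one_ne_zero h2
    · intro u _
      simp only
      split_ifs
      · exact Or.inr rfl
      · exact Or.inl rfl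
    · intro u hu v hv
      exact key u v q (Finset.mem_filter.1 hu).2 (Finset.mem_filter.1 hv).2
    · intro u hu
      exact abs_pos.2 (Finset.mem_filter.1 hu).2
    · have h1 : ∀ u, (|ψ u q| * (if ψ u q < 0 then -1 else 1)) • F u = ψ u q • F u := by
        intro u
        congr 1
        by_cases h2 : ψ u q < 0
        · rw [if_pos h2, abs_of_neg h2]
          ring
        · rw [if_neg h2, abs_of_nonneg (not_lt.1 h2), mul_one]
      calc ∑ u ∈ univ.filter (fun u => ψ u q ≠ 0),
            (|ψ u q| * (if ψ u q < 0 then -1 else 1)) • F u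
          = ∑ u ∈ univ.filter (fun u => ψ u q ≠ 0), ψ u q • F u :=
            Finset.sum_congr rfl (fun u _ => h1 u)
        _ = ∑ u, ψ u q • F u := by
            refine Finset.sum_subset (Finset.filter_subset _ _) (fun u _ hu => ?_)
            have : ψ u q = 0 := by
              by_contra h2
              exact hu (Finset.mem_filter.2 ⟨Finset.mem_univ u, h2⟩)
            rw [this, zero_smul]
        _ = 0 := hq

end Pool.Agent.Helper84.RP
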